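import Pool.Agent.N778.XE.LW

/-!
# Counting with covers
-/

set_option autoImplicit false

open Set

namespace Pool.Agent.N778.XE

open Pool.Agent.N902.EW
open Pool.Agent.R352.E (EE)

section

variable {F E : Type*} [Field F] [Field E] [Algebra F E]

lemma ai_of_eRk {ι : Type*} [Fintype ι] (t : ι → E) (h1 : (Fintype.card ι : ℕ∞) ≤ (Ma F).eRk (range t)) :
    AlgebraicIndependent F t := by
  classical
  have h2 : (range t).encard ≤ Fintype.card ι := by
    rw [← image_univ, ← ENat.card_eq_coe_fintype_card, ← encard_univ]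
    exact encard_image_le _ _
  have h3 : (Fintype.card ι : ℕ∞) ≤ (range t).encard := h1.trans (Matroid.eRk_le_encard _ _)
  have hfin : (range t).Finite := finite_range _
  have h4 : (Ma F).Indep (range t) := by
    refine ((Ma F).isRkFinite_of_finite hfin).indep_of_encard_le_eRk ?_
    exact h2.trans h1
  have hinj : Function.Injective t := by
    rw [← injOn_univ]
    refine Finite.injOn_of_encard_image_eq finite_univ ?_
    rw [image_univ]
    refine le_antisymm (h2.trans ?_) ?_
    · rw [encard_univ, ENat.card_eq_coe_fintype_card]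
    · rw [encard_univ, ENat.card_eq_coe_fintype_card]; exact h3
  exact (algebraicIndependent_subtype_range hinj).1 h4

lemma rk_of_dep {n : ℕ} {u : Fin n → E} (h : ¬ AlgebraicIndependent F u) : (Ma F).eRk (range u) + 1 ≤ n := by
  by_contra hcon
  rw [not_le] at hcon
  have hle : (Ma F).eRk (range u) ≤ n := by
    refine (Matroid.eRk_le_encard _ _).trans ?_
    rw [← image_univ]
    refine (encard_image_le _ _).trans ?_
    rw [encard_univ, ENat.card_eq_coe_fintype_card, Fintype.card_fin]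
  have hne : (Ma F).eRk (range u) ≠ ⊤ := (hle.trans_lt (ENat.natCast_lt_top n)).ne
  have h1 : (n : ℕ∞) ≤ (Ma F).eRk (range u) := (ENat.lt_add_one_iff hne).1 hcon
  exact h (ai_of_eRk u (by rw [Fintype.card_fin]; exact h1))

lemma trdeg_of_eRk {A : Set E} {n : ℕ} (h : (n : ℕ∞) ≤ (Ma F).eRk A) :
    (n : Cardinal) ≤ Algebra.trdeg F (IntermediateField.adjoin F A) := by
  obtain ⟨I, hI⟩ := (Ma F).exists_isBasis A (subset_univ _)
  rw [← hI.encard_eq_eRk] at h
  obtain ⟨t, htI, htc⟩ := exists_subset_encard_eq h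
  have hfin : t.Finite := by
    rw [← encard_lt_top_iff, htc]
    exact ENat.natCast_lt_top _
  have hind : AlgebraicIndependent F (fun i : t => (i : E)) := hI.indep.subset htI
  have htA : ∀ i : t, (i : E) ∈ IntermediateField.adjoin F A := fun i =>
    IntermediateField.subset_adjoin F A (hI.subset (htI i.2))
  let f : t → IntermediateField.adjoin F A := fun i => ⟨i, htA i⟩
  have hf : AlgebraicIndependent F f := ai_sub (IntermediateField.adjoin F A) f hind
  have := hfin.fintype
  have h2 := hf.cardinalMk_le_trdeg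
  have h3 : (n : ℕ∞) = ((Fintype.card t : ℕ) : ℕ∞) := by
    rw [← htc, ← ENat.card_eq_coe_fintype_card, Set.encard]
  have h4 : n = Fintype.card t := by exact_mod_cast h3
  rw [h4, ← Cardinal.mk_fintype]
  exact_mod_cast h2

/-- a cover of the independent family `s` by the constants `Y` and the numbers `t` -/
def Cov (F : Type*) {E : Type*} [Field F] [Field E] [Algebra F E] {ι : Type*} (s : ι → E) (Y : Set E) (t : ι → E) : Prop :=
  ∀ T : Finset ι, ∃ T' : Finset ι, T ⊆ T' ∧ ∀ i ∈ T', s i ∈ clf F (Y ∪ t '' (T' : Set ι))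

theorem cover_rank {ι : Type*} {s : ι → E} (hs : AlgebraicIndependent F s) {Y : Set E} {t : ι → E} (h : Cov F s Y t)
    (A : Finset ι) : (A.card : ℕ∞) ≤ (Ma F).eRk (Y ∪ t '' (A : Set ι)) := by
  classical
  obtain ⟨T, hAT, hT⟩ := h A
  have h1 := card_le_eRk (hs.comp (Subtype.val : T → ι) Subtype.val_injective) (fun i => hT i.1 i.2)
  rw [Fintype.card_coe] at h1
  have h2 : Y ∪ t '' (T : Set ι) ⊆ (Y ∪ t '' (A : Set ι)) ∪ t '' ((T \ A : Finset ι) : Set ι) := by
    rintro z (hz | ⟨i, hi, rfl⟩)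
    · exact Or.inl (Or.inl hz)
    · by_cases hiA : i ∈ A
      · exact Or.inl (Or.inr ⟨i, hiA, rfl⟩)
      · exact Or.inr ⟨i, by simpa using ⟨hi, hiA⟩, rfl⟩
  have h3 := ((Ma F).eRk_mono h2).trans ((Ma F).eRk_union_le_eRk_add_eRk _ _)
  have h4 : (Ma F).eRk (t '' ((T \ A : Finset ι) : Set ι)) ≤ ((T \ A).card : ℕ∞) := by
    refine (Matroid.eRk_le_encard _ _).trans ((encard_image_le _ _).trans ?_)
    rw [encard_coe_eq_coe_finsetCard]
  have h5 : (T.card : ℕ∞) ≤ (Ma F).eRk (Y ∪ t '' (A : Set ι)) + ((T \ A).card : ℕ∞) :=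
    h1.trans (h3.trans (add_le_add_right h4 _))
  have h6 : T.card = A.card + (T \ A).card := by
    rw [Finset.card_sdiff_of_subset hAT]
    have := Finset.card_le_card hAT
    omega
  rw [h6] at h5
  push_cast at h5
  exact (ENat.add_le_add_iff_right (ENat.natCast_ne_top _)).1 h5

/-- without constants -/
theorem cover_ai {ι : Type*} {s : ι → E} (hs : AlgebraicIndependent F s) {t : ι → E} (h : Cov F s ∅ t) :
    AlgebraicIndependent F t := by
  classical
  refine algebraicIndependent_of_finite_type fun T hT => ?_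
  have h1 := cover_rank hs h hT.toFinset
  have := hT.fintype
  refine ai_of_eRk _ ?_
  have h2 : (range fun i : T => t i) = ∅ ∪ t '' ((hT.toFinset : Finset ι) : Set ι) := by
    rw [empty_union, hT.coe_toFinset, image_eq_range]
  have h3 : hT.toFinset.card = Fintype.card T := by
    rw [← Set.toFinset_card]
    congr 1
    ext i
    simp
  rw [h2, ← h3]
  exact h1

/-- the number of the algebraic ones -/
theorem cover_count {ι : Type*} {s : ι → E} (hs : AlgebraicIndependent F s) {Y : Set E} {t : ι → E} (h : Cov F s Y t) :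
    {i | IsAlgebraic F (t i)}.encard ≤ (Ma F).eRk Y := by
  classical
  by_cases htop : (Ma F).eRk Y = ⊤
  · rw [htop]; exact le_top
  obtain ⟨n, hn⟩ := ENat.ne_top_iff_exists.1 htop
  rw [← hn]
  refine encard_le_of_fin _ _ fun T hT => ?_
  have h1 := cover_rank hs h T
  have h2 : Y ∪ t '' (T : Set ι) ⊆ (Ma F).closure Y := by
    rintro z (hz | ⟨i, hi, rfl⟩)
    · exact Matroid.subset_closure (Ma F) Y (subset_univ _) hz
    · exact clf_of_alg (hT hi)
  have h3 := h1.trans ((Ma F).eRk_mono h2)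
  rw [Matroid.eRk_closure_eq, ← hn] at h3
  exact_mod_cast h3

/-- the number of the algebraic ones, with the constants -/
theorem cover_count2 {ι : Type*} {s : ι → E} (hs : AlgebraicIndependent F s) {r : ℕ} {y : Fin r → E} {t : ι → E}
    (h : Cov F s (range y) t) :
    {n : Fin r ⊕ ι | Sum.elim (fun j => IsAlgebraic F (y j)) (fun i => IsAlgebraic F (t i)) n}.encard ≤ (r : ℕ∞) := by
  classical
  refine encard_le_of_fin _ _ fun T hT => ?_
  let a : Finset (Fin r) := Finset.univ.filter fun j => Sum.inl j ∈ T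
  let b : Finset ι := T.biUnion fun n => Sum.elim (fun _ => ∅) (fun i => {i}) n
  have hb : ∀ i, i ∈ b ↔ Sum.inr i ∈ T := by
    intro i
    simp only [b, Finset.mem_biUnion]
    constructor
    · rintro ⟨n, hn, hi⟩
      rcases n with j | k
      · simp at hi
      · simp at hi; rw [hi]; exact hn
    · intro hi; exact ⟨_, hi, by simp⟩
  have hT2 : T.card ≤ a.card + b.card := by
    have h1 : T ⊆ a.image Sum.inl ∪ b.image Sum.inr := by
      intro n hn
      rw [Finset.mem_union, Finset.mem_image, Finset.mem_image]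
      rcases n with j | i
      · left; exact ⟨j, by simp [a, hn], rfl⟩
      · right; exact ⟨i, (hb i).2 hn, rfl⟩
    refine (Finset.card_le_card h1).trans ((Finset.card_union_le _ _).trans ?_)
    exact Nat.add_le_add Finset.card_image_le Finset.card_image_le
  have hcov : Cov F s (y '' ((aᶜ : Finset (Fin r)) : Set (Fin r))) t := by
    intro T₀
    obtain ⟨T', h1, h2⟩ := h T₀
    refine ⟨T', h1, fun i hi => clf_le ?_ (h2 i hi)⟩
    rintro z (⟨j, rfl⟩ | hz)
    · by_cases hj : j ∈ a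
      · have : Sum.inl j ∈ T := by simpa [a] using hj
        exact clf_of_alg (hT this)
      · exact subset_clf _ (Or.inl ⟨j, by simpa using hj, rfl⟩)
    · exact subset_clf _ (Or.inr hz)
  have h1 := cover_count hs hcov
  have h2 : (b : Set ι) ⊆ {i | IsAlgebraic F (t i)} := fun i hi => hT ((hb i).1 hi)
  have h3 : (b.card : ℕ∞) ≤ ((aᶜ : Finset (Fin r)).card : ℕ∞) := by
    rw [← encard_coe_eq_coe_finsetCard]
    refine ((encard_le_encard h2).trans h1).trans ((Matroid.eRk_le_encard _ _).trans ((encard_image_le _ _).trans ?_))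
    rw [encard_coe_eq_coe_finsetCard]
  have h4 : b.card ≤ (aᶜ : Finset (Fin r)).card := by exact_mod_cast h3
  rw [Finset.card_compl, Fintype.card_fin] at h4
  have h5 : a.card ≤ r := by
    have := Finset.card_le_univ a
    rwa [Fintype.card_fin] at this
  omega

end

/-- the numbers `J_l(x, β)` and `E_l(x)` cover the numbers `E_l(x e^β)` -/
theorem cov_X (Y : Set ℂ) (V : AddSubgroup ℝ) (hV : ∀ β ∈ V, (β : ℂ) ∈ clf FX Y ∧ IsAlgebraic ℚ (Real.exp β)) (X : Set ℝ)
    (hX : ∀ x ∈ X, 0 < x ∧ IsAlgebraic ℚ x) (hXX : ∀ x ∈ X, ∀ y ∈ X, ∀ β ∈ V, x = y * Real.exp β → x = y) :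
    ∃ s : (X × V) × ℕ → ℂ, AlgebraicIndependent FX s ∧
      Cov FX s Y (fun p : (X × V) × ℕ => ((NumX p.1.1.1 p.1.2.1 p.2 : ℝ) : ℂ)) := by
  classical
  let g : (X × V) × ℕ → PA × ℕ := fun p => (⟨p.1.1.1 * Real.exp p.1.2.1,
    mul_pos (hX _ p.1.1.2).1 (Real.exp_pos _), (hX _ p.1.1.2).2.mul (hV _ p.1.2.2).2⟩, p.2)
  have hg : Function.Injective g := by
    rintro ⟨⟨⟨x, hx⟩, ⟨β, hβ⟩⟩, l⟩ ⟨⟨⟨y, hy⟩, ⟨γ, hγ⟩⟩, m⟩ h
    have h1 : x * Real.exp β = y * Real.exp γ := congrArg (fun z => z.1.1) h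
    have h2 : l = m := congrArg (fun z => z.2) h
    have h3 : x = y * Real.exp (γ - β) := by
      rw [Real.exp_sub]
      field_simp
      exact h1
    have h4 := hXX x hx y hy _ (V.sub_mem hγ hβ) h3
    subst h4
    have h5 : Real.exp β = Real.exp γ := mul_left_cancel₀ (hX x hx).1.ne' h1
    have h6 : β = γ := Real.exp_injective h5
    subst h6
    subst h2
    rfl
  refine ⟨_, ai_EE.comp g hg, fun T => ?_⟩
  let A : Finset X := T.image fun p => p.1.1
  let B : Finset V := insert 0 (T.image fun p => p.1.2)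
  let L : ℕ := T.sup fun p => p.2
  refine ⟨(A ×ˢ B) ×ˢ Finset.range (L + 1), fun p hp => ?_, fun p hp => ?_⟩
  · rw [Finset.mem_product, Finset.mem_product]
    refine ⟨⟨Finset.mem_image_of_mem _ hp, Finset.mem_insert_of_mem (Finset.mem_image_of_mem _ hp)⟩, ?_⟩
    exact Finset.mem_range.2 (Nat.lt_succ_of_le (Finset.le_sup (f := fun p : (X × V) × ℕ => p.2) hp))
  · obtain ⟨⟨x, β⟩, l⟩ := p
    rw [Finset.mem_product, Finset.mem_product] at hp
    obtain ⟨⟨hx, hβ⟩, hl⟩ := hp
    set T' : Finset ((X × V) × ℕ) := (A ×ˢ B) ×ˢ Finset.range (L + 1) with hT'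
    set C := clf FX (Y ∪ (fun p : (X × V) × ℕ => ((NumX p.1.1.1 p.1.2.1 p.2 : ℝ) : ℂ)) '' (T' : Set ((X × V) × ℕ))) with hC
    have hmem : ∀ (γ : V) (m : ℕ), γ ∈ B → m ≤ L → ((NumX x.1 γ.1 m : ℝ) : ℂ) ∈ C := by
      intro γ m hγ hm
      refine subset_clf _ (Or.inr ⟨((x, γ), m), ?_, rfl⟩)
      rw [Finset.mem_coe, hT', Finset.mem_product, Finset.mem_product]
      exact ⟨⟨hx, hγ⟩, Finset.mem_range.2 (Nat.lt_succ_of_le hm)⟩
    have hE : ∀ m ≤ L, Complex.ofRealHom (EE (m + 1) x.1) ∈ C := by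
      intro m hm
      have h1 := hmem 0 m (Finset.mem_insert_self _ _) hm
      rw [NumX, if_pos (by rfl)] at h1
      exact h1
    have hl' : l ≤ L := Nat.lt_succ_iff.1 (Finset.mem_range.1 hl)
    show ((EE (l + 1) (x.1 * Real.exp β.1) : ℝ) : ℂ) ∈ C
    by_cases hβ0 : β.1 = 0
    · rw [hβ0, Real.exp_zero, mul_one]
      exact hE l hl'
    · refine EE_mem_sub Complex.ofRealHom _ (hX _ x.2).1 (clf_mono subset_union_left (hV _ β.2).1) L hE (fun m hm => ?_)
        l hl'
      have h1 := hmem β m hβ hm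
      rw [NumX, if_neg hβ0] at h1
      exact h1

end Pool.Agent.N778.XE
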