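import Pool.Agent.R352.T.Mom

/-!
# The integrals `∫_0^β s^l exp (-x e^s) ds`
-/

set_option autoImplicit false

open MeasureTheory Set

namespace Pool.Agent.N778.XE

open Pool.Agent.R352.E (EE)
open Pool.Agent.R352.T (EA EA_deriv' EA_zero_left)

/-- `∫_0^β s^l exp (-x e^s) ds` -/
noncomputable def JI (l : ℕ) (x β : ℝ) : ℝ := ∫ s in (0 : ℝ)..β, s ^ l * Real.exp (-(x * Real.exp s))

lemma EA_eq' (l : ℕ) (x : ℝ) : EA 0 l x = EE l x := by
  simp [EA, EE]

lemma EE_zero' (x : ℝ) : EE 0 x = 1 - Real.exp (-x) := by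
  rw [← EA_eq', EA_zero_left]

lemma EE_deriv (m : ℕ) {y : ℝ} (hy : 0 < y) : HasDerivAt (EE (m + 1)) (EE m y / y) y := by
  have h1 : HasDerivAt (EA 0 (m + 1)) ((EA 0 m y - 0 * EA 0 (m + 1) y) / y) y := EA_deriv' le_rfl m hy
  rw [zero_mul, sub_zero, EA_eq'] at h1
  have e1 : EA 0 (m + 1) = EE (m + 1) := funext fun x => EA_eq' _ x
  rwa [e1] at h1

/-- the primitive -/
noncomputable def GI (l : ℕ) (x β : ℝ) : ℝ :=
  β ^ (l + 1) / ((l : ℝ) + 1) -
    ∑ j ∈ Finset.range (l + 1), (-1) ^ j * (l.descFactorial j : ℝ) * (β ^ (l - j) * EE (j + 1) (x * Real.exp β)) +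
      (-1) ^ l * (l.factorial : ℝ) * EE (l + 1) x

lemma GI_zero (l : ℕ) (x : ℝ) : GI l x 0 = 0 := by
  rw [GI, Finset.sum_range_succ, Finset.sum_eq_zero]
  · simp [Nat.descFactorial_self]
  · intro j hj
    have h1 := Finset.mem_range.1 hj
    rw [zero_pow (by omega), zero_mul, mul_zero]

lemma GI_deriv (l : ℕ) {x : ℝ} (hx : 0 < x) (β : ℝ) :
    HasDerivAt (GI l x) (β ^ l * Real.exp (-(x * Real.exp β))) β := by
  set y : ℝ := x * Real.exp β with hy
  have hy0 : 0 < y := mul_pos hx (Real.exp_pos β)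
  have hE : ∀ j : ℕ, HasDerivAt (fun β : ℝ => EE (j + 1) (x * Real.exp β)) (EE j y) β := by
    intro j
    have h1 := (EE_deriv j hy0).comp β ((Real.hasDerivAt_exp β).const_mul x)
    refine h1.congr_deriv ?_
    rw [← hy, div_mul_cancel₀ _ hy0.ne']
  let f : ℕ → ℝ := fun j => (-1) ^ j * (l.descFactorial j : ℝ) * (β ^ (l - j) * EE j y)
  have hterm : ∀ j ∈ Finset.range (l + 1), HasDerivAt
      (fun β : ℝ => (-1) ^ j * (l.descFactorial j : ℝ) * (β ^ (l - j) * EE (j + 1) (x * Real.exp β)))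
      (f j - f (j + 1)) β := by
    intro j hj
    have h1 := ((hasDerivAt_pow (l - j) β).mul (hE j)).const_mul ((-1) ^ j * (l.descFactorial j : ℝ))
    refine h1.congr_deriv ?_
    simp only [f]
    rw [Nat.descFactorial_succ, Nat.sub_add_eq]
    push_cast
    ring
  have hsum : HasDerivAt (fun β : ℝ => ∑ j ∈ Finset.range (l + 1),
      (-1) ^ j * (l.descFactorial j : ℝ) * (β ^ (l - j) * EE (j + 1) (x * Real.exp β)))
      (∑ j ∈ Finset.range (l + 1), (f j - f (j + 1))) β := HasDerivAt.fun_sum hterm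
  rw [Finset.sum_range_sub'] at hsum
  have h3 : HasDerivAt (fun β : ℝ => β ^ (l + 1) / ((l : ℝ) + 1)) (β ^ l) β := by
    have h4 := (hasDerivAt_pow (l + 1) β).div_const ((l : ℝ) + 1)
    refine h4.congr_deriv ?_
    have : (l : ℝ) + 1 ≠ 0 := by positivity
    push_cast
    field_simp
  have h5 := (h3.sub hsum).add_const ((-1) ^ l * (l.factorial : ℝ) * EE (l + 1) x)
  refine h5.congr_deriv ?_
  have hf0 : f 0 = β ^ l * (1 - Real.exp (-y)) := by
    simp only [f]
    rw [EE_zero']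
    simp
  have hfl : f (l + 1) = 0 := by
    simp only [f]
    rw [Nat.descFactorial_of_lt (Nat.lt_succ_self l)]
    simp
  rw [hf0, hfl]
  ring

theorem JI_eq (l : ℕ) {x : ℝ} (hx : 0 < x) (β : ℝ) : JI l x β = GI l x β := by
  rw [JI, intervalIntegral.integral_eq_sub_of_hasDerivAt (fun s _ => GI_deriv l hx s), GI_zero, sub_zero]
  refine Continuous.intervalIntegrable ?_ _ _
  fun_prop

/-- the top term -/
lemma EE_top (l : ℕ) {x : ℝ} (hx : 0 < x) (β : ℝ) :
    EE (l + 1) (x * Real.exp β) = ((-1) ^ l * (l.factorial : ℝ))⁻¹ * (β ^ (l + 1) / ((l : ℝ) + 1) -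
      ∑ j ∈ Finset.range l, (-1) ^ j * (l.descFactorial j : ℝ) * (β ^ (l - j) * EE (j + 1) (x * Real.exp β)) +
        (-1) ^ l * (l.factorial : ℝ) * EE (l + 1) x - JI l x β) := by
  have h1 := JI_eq l hx β
  rw [GI, Finset.sum_range_succ, Nat.descFactorial_self, Nat.sub_self, pow_zero, one_mul] at h1
  have h2 : ((-1 : ℝ) ^ l * (l.factorial : ℝ)) ≠ 0 := mul_ne_zero (pow_ne_zero _ (by norm_num)) (by positivity)
  rw [eq_inv_mul_iff_mul_eq₀ h2]
  linarith

/-- membership in subfields -/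
lemma EE_mem_sub {E : Type*} [Field E] (φ : ℝ →+* E) (C : Subfield E) {x : ℝ} (hx : 0 < x) {β : ℝ} (hβ : φ β ∈ C)
    (L : ℕ) (hE : ∀ l ≤ L, φ (EE (l + 1) x) ∈ C) (hJ : ∀ l ≤ L, φ (JI l x β) ∈ C) :
    ∀ l ≤ L, φ (EE (l + 1) (x * Real.exp β)) ∈ C := by
  intro l
  induction l using Nat.strong_induction_on with
  | _ l ih =>
    intro hl
    have hneg : ∀ n : ℕ, ((-1 : E)) ^ n ∈ C := fun n => C.pow_mem (C.neg_mem C.one_mem) n
    rw [EE_top l hx β, map_mul, map_inv₀, map_sub, map_add, map_sub, map_div₀, map_sum]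
    refine C.mul_mem (C.inv_mem ?_) (C.sub_mem (C.add_mem (C.sub_mem (C.div_mem ?_ ?_) (C.sum_mem fun j hj => ?_)) ?_)
      (hJ l hl))
    · rw [map_mul, map_pow, map_neg, map_one, map_natCast]
      exact C.mul_mem (hneg l) (natCast_mem C _)
    · rw [map_pow]
      exact C.pow_mem hβ _
    · rw [map_add, map_natCast, map_one]
      exact C.add_mem (natCast_mem C _) C.one_mem
    · have h1 := Finset.mem_range.1 hj
      rw [map_mul, map_mul, map_mul, map_pow, map_pow, map_neg, map_one, map_natCast]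
      exact C.mul_mem (C.mul_mem (hneg j) (natCast_mem C _)) (C.mul_mem (C.pow_mem hβ _) (ih j h1 (by omega)))
    · rw [map_mul, map_mul, map_pow, map_neg, map_one, map_natCast]
      exact C.mul_mem (C.mul_mem (hneg l) (natCast_mem C _)) (hE l hl)

end Pool.Agent.N778.XE
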