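import Pool.Agent.N13.SI.Main
import Pool.Agent.N778.XE.Int

/-!
# The integrals `∫_0^β s^l exp (-x e^s) ds`, `β` and `e^β` algebraic: algebraic independence over a large field
-/

set_option autoImplicit false

open Set

namespace Pool.Agent.N778.XE

open Pool.Agent.N902.EW
open Pool.Agent.R352.E (EE)

/-! ### The cover lemma -/

section

variable {F E : Type*} [Field F] [Field E] [Algebra F E]

lemma ai_of_clf {ι : Type*} [Fintype ι] {s : ι → E} (hs : AlgebraicIndependent F s) (t : ι → E)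
    (h : ∀ i, s i ∈ clf F (range t)) : AlgebraicIndependent F t := by
  classical
  have h1 := card_le_eRk hs h
  have h2 : (range t).encard ≤ Fintype.card ι := by
    rw [← image_univ, ← ENat.card_eq_coe_fintype_card, ← encard_univ]
    exact encard_image_le _ _
  have h3 : (Fintype.card ι : ℕ∞) ≤ (range t).encard := h1.trans (Matroid.eRk_le_encard _ _)
  have hfin : (range t).Finite := finite_range _
  have h4 : (Ma F).Indep (range t) := by
    refine ((Ma F).isRkFinite_of_finite hfin).indep_of_encard_le_eRk ?_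
    exact h2.trans h1
  have hinj : Function.Injective t := by
    rw [← injOn_univ]
    refine Finite.injOn_of_encard_image_eq finite_univ ?_
    rw [image_univ]
    refine le_antisymm (h2.trans ?_) ?_
    · rw [encard_univ, ENat.card_eq_coe_fintype_card]
    · rw [encard_univ, ENat.card_eq_coe_fintype_card]; exact h3
  exact (algebraicIndependent_subtype_range hinj).1 h4

theorem ai_of_cover {ι : Type*} {s : ι → E} (hs : AlgebraicIndependent F s) (t : ι → E)
    (h : ∀ T : Finset ι, ∃ T' : Finset ι, T ⊆ T' ∧ ∀ i ∈ T', s i ∈ clf F (t '' (T' : Set ι))) :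
    AlgebraicIndependent F t := by
  classical
  refine algebraicIndependent_of_finite_type fun T hT => ?_
  obtain ⟨T', hTT, hT'⟩ := h hT.toFinset
  have h1 : AlgebraicIndependent F (fun i : T' => t i) := by
    refine ai_of_clf (hs.comp (Subtype.val : T' → ι) Subtype.val_injective) _ fun i => ?_
    have h2 : range (fun i : T' => t i) = t '' (T' : Set ι) := by
      ext z
      constructor
      · rintro ⟨j, rfl⟩
        exact ⟨j.1, j.2, rfl⟩
      · rintro ⟨j, hj, rfl⟩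
        exact ⟨⟨j, hj⟩, rfl⟩
    rw [h2]
    exact hT' i.1 i.2
  exact h1.comp (fun i : T => (⟨i.1, hTT (hT.mem_toFinset.2 i.2)⟩ : T')) fun a b hab =>
    Subtype.ext (congrArg (fun z => z.1) hab)

end

/-! ### The base field -/

/-- the generators of the base field -/
def GX : Set ℂ := {z | IsAlgebraic ℚ z} ∪ {z | ∃ b : ℂ, IsAlgebraic ℚ b ∧ z = Complex.exp b} ∪
    {z | ∃ w : List ℂ, Wd w ∧ (∀ a ∈ w, ¬ (a.im = 0 ∧ a.re < 0)) ∧ z = II w 1}

/-- the base field -/
noncomputable def FX : IntermediateField ℚ ℂ := IntermediateField.adjoin ℚ GX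

lemma alg_cast {x : ℝ} (h : IsAlgebraic ℚ x) : IsAlgebraic ℚ (x : ℂ) := h.algebraMap (A := ℂ)

lemma killed_GX {z : ℂ} (hz : z ∈ GX) : ∃ f : AA Qb, evA io f = z ∧
    ∀ (x : Qb) (n : ℕ), (io x).im = 0 ∧ (io x).re < 0 → Ek x n f = 0 := by
  rcases hz with (hz | ⟨b, hb, rfl⟩) | ⟨w, hw, hneg, rfl⟩
  · exact ⟨algebraMap Qb (AA Qb) ⟨z, mem_algebraicClosure_iff'.2 hz.isIntegral⟩, evA_algebraMap _,
      fun x n _ => Derivation.map_algebraMap _ _⟩
  · obtain ⟨b', rfl⟩ := mem_range_io hb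
    refine ⟨mk b' [] adm_nil, ?_, fun x n _ => Ek_NS_self x n (mk_mem_NS _ _ (by simp))⟩
    rw [evA_mk, U_nil, evk_one, mul_one, evk_ex]
  · obtain ⟨w', rfl, hadm⟩ := exists_word hw
    refine ⟨mk 0 w' hadm, ?_, fun x n hx => Ek_NS_self x n (mk_mem_NS _ _ fun h => ?_)⟩
    · rw [evA_mk, evk_ex_zero, one_mul, ← II_one _ hadm]
    · exact hneg (io x) (List.mem_map.2 ⟨x, h, rfl⟩) hx

/-- the positive algebraic numbers -/
abbrev PA : Type := {x : ℝ // 0 < x ∧ IsAlgebraic ℚ x}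

/-- the numbers `EE (l + 1) x`, `x > 0` algebraic, are algebraically independent over the base field -/
theorem ai_EE : AlgebraicIndependent FX (fun p : PA × ℕ => ((EE (p.2 + 1) p.1.1 : ℝ) : ℂ)) := by
  choose a ha using fun x : PA => mem_range_io (alg_cast (x.2.2.neg))
  have ha0 : ∀ x : PA, a x ≠ 0 := by
    intro x h
    have h2 := ha x
    rw [h, map_zero] at h2
    have h3 : (-x.1 : ℝ) = 0 := by exact_mod_cast h2.symm
    linarith [x.2.1]
  have hinj : ∀ x y : PA, a x = a y → x = y := by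
    intro x y h
    have h1 := ha x
    rw [h, ha y] at h1
    have h2 : (-x.1 : ℝ) = -y.1 := by exact_mod_cast h1.symm
    exact Subtype.ext (neg_inj.1 h2)
  have hneg : ∀ x : PA, (io (a x)).im = 0 ∧ (io (a x)).re < 0 := by
    intro x
    rw [ha x]
    refine ⟨Complex.ofReal_im _, ?_⟩
    rw [Complex.ofReal_re]
    linarith [x.2.1]
  have h1 := ai_general GX (fun p : PA × ℕ => -mk 0 (zs (a p.1) p.2) (adm_zs (ha0 p.1) p.2))
    (fun p => Ek (a p.1) p.2) (fun z hz => ?_) (fun p => -(((-1) ^ p.2 : Qb) • mk 0 [] adm_nil))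
    (fun p => neg_ne_zero.2 (smul_nil_ne _)) (fun p => ?_) (fun p r hpr => ?_)
  · have e : (fun p : PA × ℕ => evA io (-mk 0 (zs (a p.1) p.2) (adm_zs (ha0 p.1) p.2))) =
        fun p : PA × ℕ => ((EE (p.2 + 1) p.1.1 : ℝ) : ℂ) := by
      funext p
      rw [map_neg, evA_zs_neg (ha0 p.1) (ha p.1)]
      push_cast
      ring
    rw [e] at h1
    exact h1
  · obtain ⟨f, hf, hf'⟩ := killed_GX hz
    exact ⟨f, hf, fun p => hf' _ _ (hneg p.1)⟩
  · rw [map_neg, Ek_zs (ha0 p.1) p.2 p.2 0 _ adm_nil, if_pos rfl]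
  · rw [map_neg, neg_eq_zero]
    by_cases h1 : p.1 = r.1
    · have h2 : r.2 ≠ p.2 := fun h => hpr (Prod.ext h1 h.symm)
      have h3 : mk 0 (zs (a r.1) r.2) (adm_zs (ha0 r.1) r.2) = mk 0 (zs (a p.1) r.2) (adm_zs (ha0 p.1) r.2) := by
        congr 1
        rw [h1]
      rw [h3, Ek_zs (ha0 p.1) p.2 r.2 0 _ adm_nil, if_neg h2]
    · exact Ek_zs_ne (ha0 p.1) (fun h => h1 (hinj _ _ h)) _ _ _ _

/-! ### The integrals -/

/-- the real numbers which are algebraic over the base field and whose exponentials are algebraic -/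
def VX : Set ℝ := {β | IsAlgebraic FX (β : ℂ) ∧ IsAlgebraic ℚ (Real.exp β)}

lemma VX_zero : (0 : ℝ) ∈ VX := by
  refine ⟨?_, ?_⟩
  · rw [Complex.ofReal_zero]; exact isAlgebraic_zero
  · rw [Real.exp_zero]; exact isAlgebraic_one

/-- the number with the name `(x, β, l)` -/
noncomputable def NumX (x β : ℝ) (l : ℕ) : ℝ := by
  classical
  exact if β = 0 then EE (l + 1) x else JI l x β

theorem ai_NumX (X : Set ℝ) (hX : ∀ x ∈ X, 0 < x ∧ IsAlgebraic ℚ x)
    (hXX : ∀ x ∈ X, ∀ y ∈ X, ∀ β ∈ VX, x = y * Real.exp β → x = y) :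
    AlgebraicIndependent FX (fun p : (X × VX) × ℕ => ((NumX p.1.1.1 p.1.2.1 p.2 : ℝ) : ℂ)) := by
  classical
  let g : (X × VX) × ℕ → PA × ℕ := fun p => (⟨p.1.1.1 * Real.exp p.1.2.1,
    mul_pos (hX _ p.1.1.2).1 (Real.exp_pos _), (hX _ p.1.1.2).2.mul p.1.2.2.2⟩, p.2)
  have hg : Function.Injective g := by
    rintro ⟨⟨⟨x, hx⟩, ⟨β, hβ⟩⟩, l⟩ ⟨⟨⟨y, hy⟩, ⟨γ, hγ⟩⟩, m⟩ h
    have h1 : x * Real.exp β = y * Real.exp γ := congrArg (fun z => z.1.1) h
    have h2 : l = m := congrArg (fun z => z.2) h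
    have h3 : x = y * Real.exp (γ - β) := by
      rw [Real.exp_sub]
      field_simp
      exact h1
    have hd : γ - β ∈ VX := by
      refine ⟨?_, ?_⟩
      · rw [Complex.ofReal_sub]; exact hγ.1.sub hβ.1
      · rw [Real.exp_sub]; exact hγ.2.mul hβ.2.inv
    have h4 := hXX x hx y hy _ hd h3
    subst h4
    have h5 : Real.exp β = Real.exp γ := mul_left_cancel₀ (hX x hx).1.ne' h1
    have h6 : β = γ := Real.exp_injective h5
    subst h6
    subst h2
    rfl
  refine ai_of_cover (ai_EE.comp g hg) _ fun T => ?_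
  let A : Finset X := T.image fun p => p.1.1
  let B : Finset VX := insert ⟨0, VX_zero⟩ (T.image fun p => p.1.2)
  let L : ℕ := T.sup fun p => p.2
  refine ⟨(A ×ˢ B) ×ˢ Finset.range (L + 1), fun p hp => ?_, fun p hp => ?_⟩
  · rw [Finset.mem_product, Finset.mem_product]
    refine ⟨⟨Finset.mem_image_of_mem _ hp, Finset.mem_insert_of_mem (Finset.mem_image_of_mem _ hp)⟩, ?_⟩
    exact Finset.mem_range.2 (Nat.lt_succ_of_le (Finset.le_sup (f := fun p : (X × VX) × ℕ => p.2) hp))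
  · obtain ⟨⟨x, β⟩, l⟩ := p
    rw [Finset.mem_product, Finset.mem_product] at hp
    obtain ⟨⟨hx, hβ⟩, hl⟩ := hp
    set T' : Finset ((X × VX) × ℕ) := (A ×ˢ B) ×ˢ Finset.range (L + 1) with hT'
    have hmem : ∀ (γ : VX) (m : ℕ), γ ∈ B → m ≤ L → ((NumX x.1 γ.1 m : ℝ) : ℂ) ∈
        clf FX ((fun p : (X × VX) × ℕ => ((NumX p.1.1.1 p.1.2.1 p.2 : ℝ) : ℂ)) '' (T' : Set ((X × VX) × ℕ))) := by
      intro γ m hγ hm
      refine subset_clf _ ⟨((x, γ), m), ?_, rfl⟩
      rw [Finset.mem_coe, hT', Finset.mem_product, Finset.mem_product]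
      exact ⟨⟨hx, hγ⟩, Finset.mem_range.2 (Nat.lt_succ_of_le hm)⟩
    have hE : ∀ m ≤ L, Complex.ofRealHom (EE (m + 1) x.1) ∈
        clf FX ((fun p : (X × VX) × ℕ => ((NumX p.1.1.1 p.1.2.1 p.2 : ℝ) : ℂ)) '' (T' : Set ((X × VX) × ℕ))) := by
      intro m hm
      have h1 := hmem ⟨0, VX_zero⟩ m (Finset.mem_insert_self _ _) hm
      rw [NumX, if_pos rfl] at h1
      exact h1
    have hl' : l ≤ L := Nat.lt_succ_iff.1 (Finset.mem_range.1 hl)
    show ((EE (l + 1) (x.1 * Real.exp β.1) : ℝ) : ℂ) ∈ _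
    by_cases hβ0 : β.1 = 0
    · rw [hβ0, Real.exp_zero, mul_one]
      exact hE l hl'
    · refine EE_mem_sub Complex.ofRealHom _ (hX _ x.2).1 (clf_of_alg β.2.1) L hE (fun m hm => ?_) l hl'
      have h1 := hmem β m hβ hm
      rw [NumX, if_neg hβ0] at h1
      exact h1

end Pool.Agent.N778.XE
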