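import Pool.Agent.N778.XE.Ind

/-!
# The exponentials of linearly independent algebraic numbers (Lindemann and Weierstrass)
-/

set_option autoImplicit false

open Set MvPolynomial

namespace Pool.Agent.N778.XE

open Pool.Agent.N902.EW

/-- the function `exp (a X)` in the algebra -/
noncomputable def me (a : Qb) : AA Qb := mk a [] adm_nil

lemma me_add (a b : Qb) : me a * me b = me (a + b) := mk_mul_nil a b [] adm_nil adm_nil

lemma me_zero : me 0 = 1 := by
  apply Subtype.ext
  show ex (0 : Qb) * U [] = 1
  rw [ex_zero, U_nil, one_mul]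

lemma me_pow (a : Qb) (n : ℕ) : me a ^ n = me (n * a) := by
  induction n with
  | zero => rw [pow_zero, Nat.cast_zero, zero_mul, me_zero]
  | succ n ih => rw [pow_succ, ih, me_add]; push_cast; ring_nf

lemma me_prod {ι : Type*} (s : Finset ι) (f : ι → Qb) : ∏ i ∈ s, me (f i) = me (∑ i ∈ s, f i) := by
  classical
  induction s using Finset.induction_on with
  | empty => rw [Finset.prod_empty, Finset.sum_empty, me_zero]
  | insert a s ha ih => rw [Finset.prod_insert ha, Finset.sum_insert ha, ih, me_add]

lemma me_li : LinearIndependent Qb me := by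
  have h1 := (bA Qb).linearIndependent.comp (fun a : Qb => (⟨(a, []), adm_nil⟩ : {x : Qb × List Qb // Adm x.2}))
    (fun a b h => congrArg (fun z : {x : Qb × List Qb // Adm x.2} => z.1.1) h)
  convert h1 using 1
  funext a
  exact (bA_apply (K := Qb) ⟨(a, []), adm_nil⟩).symm

theorem me_ai {n : ℕ} {a : Fin n → Qb} (ha : LinearIndependent ℚ a) : AlgebraicIndependent Qb (fun i => me (a i)) := by
  rw [algebraicIndependent_iff]
  intro P hP
  have h1 : ∑ m ∈ P.support, coeff m P • me (∑ i, (m i : Qb) * a i) = 0 := by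
    rw [← hP, MvPolynomial.aeval_def, MvPolynomial.eval₂_eq']
    refine Finset.sum_congr rfl fun m _ => ?_
    rw [Algebra.smul_def]
    congr 1
    rw [← me_prod]
    exact Finset.prod_congr rfl fun i _ => (me_pow _ _).symm
  have hinj : Function.Injective fun m : Fin n →₀ ℕ => ∑ i, (m i : Qb) * a i := by
    intro m m' h
    have h2 : ∑ i, ((m i : ℚ) - (m' i : ℚ)) • a i = 0 := by
      have h3 : ∑ i, ((m i : ℚ) - (m' i : ℚ)) • a i = ∑ i, (m i : Qb) * a i - ∑ i, (m' i : Qb) * a i := by
        rw [← Finset.sum_sub_distrib]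
        refine Finset.sum_congr rfl fun i _ => ?_
        rw [sub_smul, Algebra.smul_def, Algebra.smul_def]
        simp
      rw [h3]
      exact sub_eq_zero.2 h
    ext i
    have h4 := Fintype.linearIndependent_iff.1 ha _ h2 i
    have h5 : (m i : ℚ) = (m' i : ℚ) := sub_eq_zero.1 h4
    exact_mod_cast h5
  have h2 := linearIndependent_iff'.1 (me_li.comp _ hinj) P.support (fun m => coeff m P) h1
  ext m
  by_cases hm : m ∈ P.support
  · rw [h2 m hm, coeff_zero]
  · rw [notMem_support_iff.1 hm, coeff_zero]

/-- Lindemann and Weierstrass -/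
theorem exp_ai {n : ℕ} {a : Fin n → ℂ} (haa : ∀ i, IsAlgebraic ℚ (a i)) (ha : LinearIndependent ℚ a) :
    AlgebraicIndependent Qb (fun i => Complex.exp (a i)) := by
  choose b hb using fun i => mem_range_io (haa i)
  have hbl : LinearIndependent ℚ b := by
    refine LinearIndependent.of_comp (Qb.val.toLinearMap) ?_
    have : (Qb.val.toLinearMap : Qb →ₗ[ℚ] ℂ) ∘ b = a := funext hb
    rw [this]
    exact ha
  have h1 := me_ai hbl
  let f : AA Qb →ₐ[Qb] ℂ := { evA io with commutes' := fun c => evA_algebraMap c }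
  have h2 := h1.map' (f := f) (evA_injective io)
  convert h2 using 1
  funext i
  show _ = evA io (mk (b i) [] adm_nil)
  rw [evA_mk, U_nil, evk_one, mul_one, evk_ex, hb]

/-- if the exponentials and the numbers `u` are algebraically dependent then the numbers `u` are algebraically dependent
over the base field -/
theorem dep_over {n : ℕ} {a : Fin n → ℂ} (haa : ∀ i, IsAlgebraic ℚ (a i)) (ha : LinearIndependent ℚ a) {κ : Type}
    {u : κ → ℂ} (h : ¬ AlgebraicIndependent Qb (Sum.elim u (fun i => Complex.exp (a i)))) :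
    ¬ AlgebraicIndependent FX u := by
  intro hu
  refine h ?_
  have hle : Qb ≤ FX := by
    intro z hz
    exact IntermediateField.subset_adjoin _ _ (Or.inl (Or.inl (mem_algebraicClosure_iff'.1 hz).isAlgebraic))
  let _ : Algebra Qb FX := (IntermediateField.inclusion hle).toRingHom.toAlgebra
  have : IsScalarTower Qb FX ℂ := IsScalarTower.of_algebraMap_eq fun _ => rfl
  refine (exp_ai haa ha).sumElim_of_tower (S := FX) ?_ hu
  rintro _ ⟨i, rfl⟩
  exact ⟨⟨Complex.exp (a i), IntermediateField.subset_adjoin _ _ (Or.inl (Or.inr ⟨a i, haa i, rfl⟩))⟩, rfl⟩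

end Pool.Agent.N778.XE
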