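import Pool.Agent.N778.XE.Ind
import Pool.Agent.N778.EM.FinalQ
import Pool.Agent.N778.EM.Pencil

/-!
# The integrals `∫_0^β s^l exp (-x e^s) ds`, `e^β` rational: a measure of algebraic independence
-/

set_option autoImplicit false

open Set

namespace Pool.Agent.N778.XE

open Pool.Agent.N778.EM (MeasF EE_meas_X meas_of_span)
open Pool.Agent.R352.E (EE clF mem_clF subset_clF clF_mono clF_le)

theorem meas_J {x : ℚ} (hx : 0 < x) (A : Finset (ℕ × ℝ))
    (hA : ∀ p ∈ A, p.2 ≠ 0 ∧ p.2 ∈ clF {Real.exp 1} ∧ ∃ q : ℚ, Real.exp p.2 = (q : ℝ)) :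
    MeasF (Sum.elim (fun _ : Fin 1 => Real.exp 1) (fun p : A => JI (p : ℕ × ℝ).1 (x : ℝ) (p : ℕ × ℝ).2)) := by
  classical
  let B : Finset ℝ := insert 0 (A.image fun p => p.2)
  have hB : ∀ β ∈ B, β ∈ clF {Real.exp 1} ∧ ∃ q : ℚ, Real.exp β = (q : ℝ) := by
    intro β hβ
    rcases Finset.mem_insert.1 hβ with rfl | h
    · refine ⟨(clF _).zero_mem, 1, ?_⟩
      rw [Real.exp_zero, Rat.cast_one]
    · obtain ⟨p, hp, rfl⟩ := Finset.mem_image.1 h
      exact (hA p hp).2
  choose q hq using fun β : B => (hB β.1 β.2).2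
  have hq0 : ∀ β : B, 0 < q β := by
    intro β
    have h1 : (0 : ℝ) < q β := by
      rw [← hq β]
      exact Real.exp_pos _
    exact_mod_cast h1
  let L : ℕ := A.sup fun p => p.1
  let X : Finset ℚ := Finset.univ.image fun β : B => x * q β
  have hX : ∀ y ∈ X, 0 < y := by
    intro y hy
    obtain ⟨β, _, rfl⟩ := Finset.mem_image.1 hy
    exact mul_pos hx (hq0 β)
  let g : Fin 1 ⊕ (Fin (L + 1) × B) → Fin 1 ⊕ (Fin (L + 1) × X) :=
    Sum.map id (Prod.map id fun β : B => (⟨x * q β, Finset.mem_image.2 ⟨β, Finset.mem_univ _, rfl⟩⟩ : X))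
  have hg : Function.Injective g := by
    refine Function.Injective.sumMap Function.injective_id (Function.Injective.prodMap Function.injective_id ?_)
    intro β γ h
    have h1 : x * q β = x * q γ := congrArg (fun z : X => (z : ℚ)) h
    have h2 : q β = q γ := mul_left_cancel₀ hx.ne' h1
    have h3 : Real.exp β.1 = Real.exp γ.1 := by rw [hq β, hq γ, h2]
    exact Subtype.ext (Real.exp_injective h3)
  have h1 := (EE_meas_X (L + 1) X hX).comp g hg
  let w : Fin 1 ⊕ (Fin (L + 1) × B) → ℝ := Sum.elim (fun _ : Fin 1 => Real.exp 1)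
    (fun p : Fin (L + 1) × B => NumX (x : ℝ) p.2.1 p.1)
  have h2 : MeasF w := by
    refine meas_of_span h1 w ?_ le_rfl
    have hx' : (0 : ℝ) < (x : ℝ) := by exact_mod_cast hx
    have he : Real.exp 1 ∈ clF (range w) := subset_clF _ ⟨Sum.inl 0, rfl⟩
    have hN : ∀ (l : ℕ) (β : B), l ≤ L → NumX (x : ℝ) β.1 l ∈ clF (range w) := fun l β hl =>
      subset_clF _ ⟨Sum.inr (⟨l, Nat.lt_succ_of_le hl⟩, β), rfl⟩
    rintro (j | p)
    · exact he
    · obtain ⟨l, β⟩ := p
      have hl : (l : ℕ) ≤ L := Nat.lt_succ_iff.1 l.2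
      have e1 : (Sum.elim (fun _ : Fin 1 => Real.exp 1) (fun p : Fin (L + 1) × X => EE (p.1 + 1) ((p.2 : ℚ) : ℝ)) ∘ g)
          (Sum.inr (l, β)) = EE ((l : ℕ) + 1) ((x : ℝ) * Real.exp β.1) := by
        rw [hq β]
        simp only [g, Function.comp_apply, Sum.map_inr, Sum.elim_inr, Prod.map_apply, id_eq]
        push_cast
        rfl
      rw [e1]
      have hE : ∀ m ≤ L, (RingHom.id ℝ) (EE (m + 1) (x : ℝ)) ∈ clF (range w) := by
        intro m hm
        have h3 := hN m ⟨0, Finset.mem_insert_self _ _⟩ hm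
        rw [NumX, if_pos rfl] at h3
        exact h3
      by_cases hβ0 : β.1 = 0
      · rw [hβ0, Real.exp_zero, mul_one]
        exact hE l hl
      · have hβc : (RingHom.id ℝ) β.1 ∈ clF (range w) := by
          refine clF_le (S := {Real.exp 1}) ?_ (hB β.1 β.2).1
          rintro z rfl
          exact he
        refine EE_mem_sub (RingHom.id ℝ) _ hx' hβc L hE (fun m hm => ?_) l hl
        have h3 := hN m β hm
        rw [NumX, if_neg hβ0] at h3
        exact h3
  let k : Fin 1 ⊕ A → Fin 1 ⊕ (Fin (L + 1) × B) := Sum.map id fun p : A =>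
    (⟨(p : ℕ × ℝ).1, Nat.lt_succ_of_le (Finset.le_sup (f := fun p : ℕ × ℝ => p.1) p.2)⟩,
      ⟨(p : ℕ × ℝ).2, Finset.mem_insert_of_mem (Finset.mem_image_of_mem _ p.2)⟩)
  have hk : Function.Injective k := by
    refine Function.Injective.sumMap Function.injective_id ?_
    intro p r h
    have e1 : (p : ℕ × ℝ).1 = (r : ℕ × ℝ).1 := congrArg (fun z : Fin (L + 1) × B => (z.1 : ℕ)) h
    have e2 : (p : ℕ × ℝ).2 = (r : ℕ × ℝ).2 := congrArg (fun z : Fin (L + 1) × B => (z.2 : ℝ)) h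
    exact Subtype.ext (Prod.ext e1 e2)
  have h3 := h2.comp k hk
  convert h3 using 1
  funext s
  rcases s with s | p
  · rfl
  · simp only [k, w, Function.comp_apply, Sum.map_inr, Sum.elim_inr]
    rw [NumX, if_neg (hA _ p.2).1]

end Pool.Agent.N778.XE
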